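import Pool.Agent.Run7.h547.KM.Iface

/-! COUNT piece of project KM (helper834). -/

set_option autoImplicit false

universe u

namespace Pool.Agent.Run7.h834.KM

open Pool.Agent.Run7.h547.KM

/-- reversal of a word given as a function -/
def rv {n : ℕ} (g : Fin n → Fin 3) : Fin n → Fin 3 := fun i => g i.rev

theorem rv_rv {n : ℕ} (g : Fin n → Fin 3) : rv (rv g) = g := by
  funext i; simp [rv]

theorem ofFn_rv {n : ℕ} (g : Fin n → Fin 3) : List.ofFn (rv g) = (List.ofFn g).reverse := by
  apply List.ext_getElem
  · simp
  · intro i h1 h2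
    simp only [List.length_ofFn] at h1
    rw [List.getElem_ofFn, List.getElem_reverse, List.getElem_ofFn]
    unfold rv
    congr 1
    apply Fin.ext
    simp [Fin.val_rev]
    omega

open Classical in
theorem t_COUNT : S_COUNT.{u} := by
  intro k _ _ n P hP hmem
  let e : (Fin n → Fin 3) ≃ Fin (Fintype.card (Fin n → Fin 3)) := Fintype.equivFin _
  let T : Finset (Fin n → Fin 3) := Finset.univ.filter fun g => e g ≤ e (rv g)
  let wd : (Fin n → Fin 3) → FreeMonoid (Fin 3) := fun g => FreeMonoid.ofList (List.ofFn g)
  have hwd : Function.Injective wd := fun g g' h =>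
    List.ofFn_injective (FreeMonoid.ofList.injective h)
  let v : (Fin n → Fin 3) → AA k := fun g => WW k (List.ofFn g) + WW k (List.ofFn g).reverse
  have hv : ∀ g, v g ∈ P := fun g => hmem _ (by simp)
  have hvc : ∀ g h : Fin n → Fin 3, (v g).coeff (wd h) =
      (if g = h then 1 else 0) + (if rv g = h then 1 else 0) := by
    intro g h
    have h1 : v g = MonoidAlgebra.single (wd g) 1 + MonoidAlgebra.single (wd (rv g)) 1 := by
      show WW k (List.ofFn g) + WW k (List.ofFn g).reverse = _
      rw [← ofFn_rv]
      rfl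
    rw [h1, MonoidAlgebra.coeff_add, Finsupp.add_apply, MonoidAlgebra.coeff_single,
      MonoidAlgebra.coeff_single, Finsupp.single_apply, Finsupp.single_apply]
    simp only [hwd.eq_iff]
  -- the words of `T`
  have hT : ∀ g ∈ T, ∀ h ∈ T, g ≠ h → (v g).coeff (wd h) = 0 := by
    intro g hg h hh hne
    rw [hvc, if_neg hne, zero_add]
    by_cases h2 : rv g = h
    · exfalso
      apply hne
      have h3 : e g ≤ e (rv g) := (Finset.mem_filter.mp hg).2
      have h4 : e h ≤ e (rv h) := (Finset.mem_filter.mp hh).2
      rw [← h2, rv_rv] at h4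
      rw [← h2]
      exact e.injective (le_antisymm h3 h4)
    · rw [if_neg h2]
  have hT' : ∀ g, (v g).coeff (wd g) ≠ 0 := by
    intro g
    rw [hvc, if_pos rfl]
    by_cases h2 : rv g = g
    · rw [if_pos h2]
      norm_num
    · rw [if_neg h2]
      norm_num
  let vP : T → P := fun g => ⟨v g.1, hv g.1⟩
  have hli : LinearIndependent k vP := by
    rw [Fintype.linearIndependent_iff]
    intro c hc h
    have h1 : ∑ g : T, c g • v g.1 = 0 := by
      have := congrArg (fun x : P => (x : AA k)) hc
      simpa [vP] using this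
    have h2 := congrArg (fun x : AA k => x.coeff (wd h.1)) h1
    simp only [MonoidAlgebra.coeff_sum, Finsupp.coe_finsetSum, Finset.sum_apply,
      MonoidAlgebra.coeff_zero, Finsupp.coe_zero, Pi.zero_apply] at h2
    rw [Finset.sum_eq_single h] at h2
    · rw [MonoidAlgebra.coeff_smul, Finsupp.smul_apply, smul_eq_mul] at h2
      exact (mul_eq_zero.mp h2).resolve_right (hT' h.1)
    · intro g _ hg
      rw [MonoidAlgebra.coeff_smul, Finsupp.smul_apply, smul_eq_mul,
        hT g.1 g.2 h.1 h.2 (fun h3 => hg (Subtype.ext h3)), mul_zero]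
    · intro h3
      exact absurd (Finset.mem_univ _) h3
  have hcard : T.card ≤ Module.finrank k P := by
    have := hli.fintype_card_le_finrank
    simpa using this
  have huniv : (Finset.univ : Finset (Fin n → Fin 3)) ⊆ T ∪ T.image rv := by
    intro g _
    rw [Finset.mem_union]
    rcases le_total (e g) (e (rv g)) with h | h
    · left; exact Finset.mem_filter.mpr ⟨Finset.mem_univ _, h⟩
    · right
      refine Finset.mem_image.mpr ⟨rv g, Finset.mem_filter.mpr ⟨Finset.mem_univ _, ?_⟩, rv_rv g⟩
      rw [rv_rv]; exact h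
  have h3n : (Finset.univ : Finset (Fin n → Fin 3)).card = 3 ^ n := by
    simp
  calc 3 ^ n = (Finset.univ : Finset (Fin n → Fin 3)).card := h3n.symm
    _ ≤ (T ∪ T.image rv).card := Finset.card_le_card huniv
    _ ≤ T.card + (T.image rv).card := Finset.card_union_le _ _
    _ ≤ T.card + T.card := Nat.add_le_add_left Finset.card_image_le _
    _ ≤ 2 * Module.finrank k P := by omega

end Pool.Agent.Run7.h834.KM
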